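import Mathlib

/-!
# Graph amplitudes of modulus less than one (MP_229e70_co)

For a finite simple graph `G` and an admissible configuration `x`, the conjecture
`|A_G(x)| ≥ 1` is disproved: for the cycle with `19` vertices and an explicit planar convex
19-gon with integer coordinates one has
`A_G(x) = 1255370787501944673600 / 1294062204096391210000 < 1`.
-/

namespace Pool.Agent.Results.MP_229e70_co.SmallAmplitude

open Finset

/-- Euclidean 3-space. -/
abbrev E3 : Type := EuclideanSpace ℝ (Fin 3)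

/-- The Pauli matrix `σ₁`. -/
def pauli1 : Matrix (Fin 2) (Fin 2) ℂ := !![0, 1; 1, 0]

/-- The Pauli matrix `σ₂`. -/
def pauli2 : Matrix (Fin 2) (Fin 2) ℂ := !![0, -Complex.I; Complex.I, 0]

/-- The Pauli matrix `σ₃`. -/
def pauli3 : Matrix (Fin 2) (Fin 2) ℂ := !![1, 0; 0, -1]

/-- `v · σ = v₁ σ₁ + v₂ σ₂ + v₃ σ₃`. -/
noncomputable def dotSigma (v : E3) : Matrix (Fin 2) (Fin 2) ℂ :=
  ((v 0 : ℝ) : ℂ) • pauli1 + ((v 1 : ℝ) : ℂ) • pauli2 + ((v 2 : ℝ) : ℂ) • pauli3

/-- `ψ ∈ ℂ²` is a unit vector with `(v · σ) ψ = ψ`. -/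
def IsUnitSpinor (v : E3) (ψ : Fin 2 → ℂ) : Prop :=
  ‖ψ 0‖ ^ 2 + ‖ψ 1‖ ^ 2 = 1 ∧ (dotSigma v).mulVec ψ = ψ

/-- `ω(a, b) = a₁ b₂ - a₂ b₁`. -/
def omega (a b : Fin 2 → ℂ) : ℂ := a 0 * b 1 - a 1 * b 0

/-- The unit vector from `x i` to `x j`. -/
noncomputable def unitDir {V : Type} (x : V → E3) (i j : V) : E3 :=
  (1 / ‖x j - x i‖) • (x j - x i)

/-- An admissible configuration: adjacent vertices are sent to different points. -/
def Admissible {V : Type} (G : SimpleGraph V) (x : V → E3) : Prop :=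
  ∀ i j, G.Adj i j → x i ≠ x j

/-- A choice of unit spinors `ψ_{ij}`, one for each ordered pair `(i,j)` of adjacent vertices
(the set `S_G` is the type `G.Dart`). -/
def IsSpinorChoice {V : Type} (G : SimpleGraph V) (x : V → E3) (ψ : G.Dart → Fin 2 → ℂ) : Prop :=
  ∀ d : G.Dart, IsUnitSpinor (unitDir x d.fst d.snd) (ψ d)

/-- `Δ ⊆ S_G` contains exactly one of `(i,j)`, `(j,i)` for each edge. -/
def IsHalf {V : Type} (G : SimpleGraph V) (Δ : Finset G.Dart) : Prop :=
  ∀ d : G.Dart, (d ∈ Δ ∧ d.symm ∉ Δ) ∨ (d ∉ Δ ∧ d.symm ∈ Δ)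

/-- The group `P_G` of permutations of `S_G` preserving the first index. -/
def firstPreserving {V : Type} [Fintype V] [DecidableEq V] (G : SimpleGraph V)
    [DecidableRel G.Adj] : Finset (Equiv.Perm G.Dart) :=
  univ.filter fun σ => ∀ d : G.Dart, (σ d).fst = d.fst

/-- The `G`-amplitude, computed with the spinors `ψ` and the half `Δ` of `S_G`. -/
noncomputable def amplitude {V : Type} [Fintype V] [DecidableEq V] (G : SimpleGraph V)
    [DecidableRel G.Adj] (ψ : G.Dart → Fin 2 → ℂ) (Δ : Finset G.Dart) : ℂ :=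
  (∑ σ ∈ firstPreserving G, ∏ d ∈ Δ, omega (ψ (σ d)) (ψ (σ d.symm))) /
    ∏ d ∈ Δ, omega (ψ d) (ψ d.symm)

/-! ### The cycle -/

/-- abstract darts of the 19-cycle: `(v, true)` is `v → v + 1`, `(v, false)` is `v + 1 → v` -/
abbrev D : Type := Fin 19 × Bool

/-- the source of a dart -/
def src (d : D) : Fin 19 := if d.2 then d.1 else d.1 + 1

/-- reversal of darts -/
def rev (d : D) : D := (d.1, !d.2)

theorem rev_rev (d : D) : rev (rev d) = d := by
  obtain ⟨k, l⟩ := d
  cases l <;> rfl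

theorem src_true (v : Fin 19) : src (v, true) = v := rfl

theorem src_false (v : Fin 19) : src (v, false) = v + 1 := rfl

theorem ne_succ (v : Fin 19) : v ≠ v + 1 := by
  revert v
  decide

theorem ne_succ_succ (v : Fin 19) : v ≠ v + 1 + 1 := by
  revert v
  decide

/-- the cycle with `19` vertices -/
def cyc : SimpleGraph (Fin 19) where
  Adj u v := ∃ d : D, src d = u ∧ src (rev d) = v
  symm := by
    constructor
    rintro u v ⟨d, h1, h2⟩
    exact ⟨rev d, h2, by rw [rev_rev]; exact h1⟩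
  loopless := by
    constructor
    rintro u ⟨⟨k, l⟩, h1, h2⟩
    rw [← h2] at h1
    cases l
    · exact ne_succ k h1.symm
    · exact ne_succ k h1

theorem src_pair_injective {d e : D} (h1 : src d = src e)
    (h2 : src (rev d) = src (rev e)) : d = e := by
  obtain ⟨k, l⟩ := d
  obtain ⟨k', l'⟩ := e
  cases l <;> cases l'
  · have h3 : k = k' := h2
    rw [h3]
  · have h3 : k + 1 = k' := h1
    have h4 : k = k' + 1 := h2
    rw [← h3] at h4
    exact absurd h4 (ne_succ_succ k)
  · have h3 : k = k' + 1 := h1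
    have h4 : k + 1 = k' := h2
    rw [← h4] at h3
    exact absurd h3 (ne_succ_succ k)
  · have h3 : k = k' := h1
    rw [h3]

instance : DecidableRel cyc.Adj := by
  intro u v
  unfold cyc
  infer_instance

/-- the map from abstract darts to darts -/
def toDart (d : D) : cyc.Dart := ⟨(src d, src (rev d)), ⟨d, rfl, rfl⟩⟩

theorem toDart_bijective : Function.Bijective toDart := by
  constructor
  · intro d e h
    have h' := congrArg SimpleGraph.Dart.toProd h
    simp only [toDart, Prod.mk.injEq] at h'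
    exact src_pair_injective h'.1 h'.2
  · rintro ⟨⟨u, v⟩, ⟨d, h1, h2⟩⟩
    exact ⟨d, SimpleGraph.Dart.ext _ _ (Prod.ext h1 h2)⟩

/-- abstract darts are the darts -/
noncomputable def eqv : D ≃ cyc.Dart := Equiv.ofBijective _ toDart_bijective

theorem eqv_apply (d : D) : eqv d = toDart d := rfl

theorem eqv_fst (d : D) : (eqv d).fst = src d := rfl

theorem eqv_snd (d : D) : (eqv d).snd = src (rev d) := rfl

theorem eqv_symm (d : D) : (eqv d).symm = eqv (rev d) := by
  have h : src (rev (rev d)) = src d := by rw [rev_rev]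
  refine SimpleGraph.Dart.ext _ _ (Prod.ext rfl ?_)
  exact h.symm

/-! ### Reduction of the amplitude to a combinatorial sum -/

/-- permutations of the abstract darts preserving the source -/
def pres : Finset (Equiv.Perm D) := univ.filter fun τ => ∀ d, src (τ d) = src d

/-- product over a half of the darts of an antisymmetric function -/
theorem prod_half (Δ : Finset cyc.Dart) (hΔ : IsHalf _ Δ)
    (f : cyc.Dart → ℂ) (hf : ∀ d, f d.symm = - f d) :
    ∏ d ∈ Δ, f d =
      (∏ k : Fin 19, (if eqv (k, true) ∈ Δ then (1 : ℂ) else -1)) *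
      ∏ k : Fin 19, f (eqv (k, true)) := by
  have h1 : ∏ d ∈ Δ, f d = ∏ d : cyc.Dart, if d ∈ Δ then f d else 1 := by
    rw [Finset.prod_ite_mem, Finset.univ_inter]
  rw [h1, ← Equiv.prod_comp eqv, Fintype.prod_prod_type, ← Finset.prod_mul_distrib]
  refine Finset.prod_congr rfl fun k _ => ?_
  rw [Fintype.prod_bool]
  have e1 : (eqv (k, true)).symm = eqv (k, false) := by
    rw [eqv_symm]
    rfl
  rcases hΔ (eqv (k, true)) with ⟨ha, hb⟩ | ⟨ha, hb⟩
  · rw [e1] at hb
    rw [if_neg hb, if_pos ha, if_pos ha]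
    ring
  · rw [e1] at hb
    rw [if_pos hb, if_neg ha, if_neg ha, ← e1, hf]
    ring

theorem sum_pres (F : Equiv.Perm cyc.Dart → ℂ) :
    ∑ σ ∈ firstPreserving cyc, F σ = ∑ τ ∈ pres, F (eqv.permCongr τ) := by
  symm
  refine Finset.sum_bij (fun τ _ => eqv.permCongr τ) ?_ ?_ ?_ ?_
  · intro τ hτ
    rw [pres, mem_filter] at hτ
    rw [firstPreserving, mem_filter]
    refine ⟨mem_univ _, fun d => ?_⟩
    obtain ⟨e, rfl⟩ := eqv.surjective d
    simp only [Equiv.permCongr_apply, Equiv.symm_apply_apply]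
    rw [eqv_fst, eqv_fst]
    exact hτ.2 e
  · intro τ _ τ' _ h
    exact eqv.permCongr.injective h
  · intro σ hσ
    rw [firstPreserving, mem_filter] at hσ
    refine ⟨eqv.permCongr.symm σ, ?_, ?_⟩
    · rw [pres, mem_filter]
      refine ⟨mem_univ _, fun d => ?_⟩
      have := hσ.2 (eqv d)
      rw [eqv_fst] at this
      rw [← this, ← eqv_fst]
      simp
    · exact eqv.permCongr.apply_symm_apply σ
  · intro τ _
    rfl

/-! ### Parametrisation of the source preserving permutations -/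

/-- the map on darts attached to bits `s` -/
def phi (s : Fin 19 → Bool) : D → D
  | (v, true) => if s v then (v - 1, false) else (v, true)
  | (v, false) => if s (v + 1) then (v + 1, true) else (v, false)

theorem phi_phi (s : Fin 19 → Bool) (d : D) : phi s (phi s d) = d := by
  obtain ⟨v, l⟩ := d
  cases l
  · by_cases h : s (v + 1) = true <;> simp [phi, h]
  · by_cases h : s v = true <;> simp [phi, h]

/-- the permutation of darts attached to bits -/
def Phi (s : Fin 19 → Bool) : Equiv.Perm D where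
  toFun := phi s
  invFun := phi s
  left_inv := phi_phi s
  right_inv := phi_phi s

theorem Phi_mem (s : Fin 19 → Bool) : Phi s ∈ pres := by
  rw [pres, mem_filter]
  refine ⟨mem_univ _, ?_⟩
  rintro ⟨v, l⟩
  change src (phi s (v, l)) = _
  cases l
  · by_cases h : s (v + 1) = true <;> simp [phi, h, src]
  · by_cases h : s v = true <;> simp [phi, h, src]

theorem Phi_injective {s s' : Fin 19 → Bool} (h : Phi s = Phi s') : s = s' := by
  have h' : ∀ d, phi s d = phi s' d := fun d => congrArg (fun τ : Equiv.Perm D => τ d) h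
  funext v
  have e1 := h' (v, true)
  simp only [phi] at e1
  cases hb : s v <;> cases hb' : s' v <;> simp_all

theorem src_eq {d : D} {v : Fin 19} (h : src d = v) : d = (v, true) ∨ d = (v - 1, false) := by
  obtain ⟨k, l⟩ := d
  cases l
  · right
    rw [src_false] at h
    rw [← h]
    simp
  · left
    rw [src_true] at h
    rw [h]

theorem Phi_surjective {τ : Equiv.Perm D} (hτ : τ ∈ pres) : ∃ s : Fin 19 → Bool, Phi s = τ := by
  rw [pres, mem_filter] at hτ
  have hs := hτ.2
  refine ⟨fun v => decide (τ (v, true) = (v - 1, false)), ?_⟩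
  ext1 d
  obtain ⟨v, l⟩ := d
  change phi _ (v, l) = _
  cases l
  · have a1 := src_eq (d := τ (v + 1, true)) (v := v + 1) (by rw [hs]; rfl)
    have a2 := src_eq (d := τ (v, false)) (v := v + 1) (by rw [hs]; rfl)
    rw [add_sub_cancel_right] at a1 a2
    have n1 : τ (v + 1, true) ≠ τ (v, false) := fun h => by simpa using τ.injective h
    rcases a1 with h | h
    · rcases a2 with h' | h'
      · exact absurd (h.trans h'.symm) n1
      · simp [phi, h, h']
    · rcases a2 with h' | h'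
      · simp [phi, h, h']
      · exact absurd (h.trans h'.symm) n1
  · have a1 := src_eq (d := τ (v, true)) (v := v) (by rw [hs]; rfl)
    rcases a1 with h | h <;> simp [phi, h]

theorem sum_Phi (F : Equiv.Perm D → ℂ) :
    ∑ τ ∈ pres, F τ = ∑ s : Fin 19 → Bool, F (Phi s) := by
  symm
  refine Finset.sum_bij (fun s _ => Phi s) ?_ ?_ ?_ ?_
  · intro q _
    exact Phi_mem _
  · intro q _ q' _ h
    exact Phi_injective h
  · intro τ hτ
    obtain ⟨s, h⟩ := Phi_surjective hτ
    exact ⟨s, mem_univ _, h⟩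
  · intro q _
    rfl

/-! ### Integer data -/

/-- first coordinates of the integer spinors of the edges `v → v + 1` -/
def pI : Fin 19 → ℤ := ![1, 6, 3, 2, 5, 1, 2, 2, 1, 1, -1, -1, -2, -2, -1, -5, -2, -3, -6]

/-- second coordinates of the integer spinors of the edges `v → v + 1` -/
def qI : Fin 19 → ℤ := ![0, 1, 1, 1, 4, 1, 3, 5, 4, 6, 6, 4, 5, 3, 1, 4, 1, 1, 1]

/-- first coordinates of the vertices (times 1) -/
def xI : Fin 19 → ℤ := ![0, 0, 12, 18, 22, 62, 64, 76, 96, 104, 116, 104, 96, 76, 64, 62, 22, 18, 12]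

/-- third coordinates of the vertices -/
def zI : Fin 19 → ℤ := ![0, 42, 77, 85, 88, 97, 97, 92, 71, 56, 21, -14, -29, -50, -55, -55, -46, -43, -35]

/-- scaling factors of the edges -/
def lI : Fin 19 → ℤ := ![42, 1, 1, 1, 1, 1, 1, 1, 1, 1, 1, 1, 1, 1, 1, 1, 1, 1, 1]

theorem edges_ok : ∀ v : Fin 19, xI (v + 1) - xI v = lI v * (2 * pI v * qI v) ∧
    zI (v + 1) - zI v = lI v * (pI v ^ 2 - qI v ^ 2) ∧ 0 < lI v ∧ 0 < pI v ^ 2 + qI v ^ 2 := by
  decide

/-- integer spinors of the darts -/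
def sI : D → ℤ × ℤ
  | (v, true) => (pI v, qI v)
  | (v, false) => (-qI v, pI v)

/-- integer symplectic form -/
def oI (a b : ℤ × ℤ) : ℤ := a.1 * b.2 - a.2 * b.1

/-- integer transfer coefficients -/
def KI (v : Fin 19) (b b' : Bool) : ℤ :=
  oI (sI (if b then (v - 1, false) else (v, true)))
    (sI (if b' then (v + 1, true) else (v, false)))

/-- natural number indexed version of `KI` -/
def KN (v : ℕ) (b b' : Bool) : ℤ := KI (Fin.ofNat 19 v) b b'

/-- products of transfer matrices -/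
def Pw : ℕ → Bool → Bool → ℤ
  | 0 => fun i j => if i = j then 1 else 0
  | k + 1 => fun i j => Pw k i false * KN k false j + Pw k i true * KN k true j

theorem path_sum (k : ℕ) : ∀ F : Bool → Bool → ℤ,
    ∑ s : Fin (k + 1) → Bool, (∏ v : Fin k, KN v (s v.castSucc) (s v.succ)) *
      F (s 0) (s (Fin.last k)) = ∑ i : Bool, ∑ j : Bool, Pw k i j * F i j := by
  induction k with
  | zero =>
    intro F
    have h : ∀ s : Fin 1 → Bool, (∏ v : Fin 0, KN v (s v.castSucc) (s v.succ)) *
        F (s 0) (s (Fin.last 0)) = F (s 0) (s 0) := by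
      intro s
      simp
    simp only [h]
    rw [← Equiv.sum_comp (Equiv.funUnique (Fin 1) Bool).symm]
    simp [Pw]
  | succ k ih =>
    intro F
    rw [← Equiv.sum_comp (Fin.snocEquiv (fun _ : Fin (k + 2) => Bool)), Fintype.sum_prod_type,
      Finset.sum_comm]
    have hterm : ∀ (s : Fin (k + 1) → Bool) (x : Bool),
        (∏ v : Fin (k + 1), KN v
            ((Fin.snocEquiv (fun _ : Fin (k + 2) => Bool)) (x, s) v.castSucc)
            ((Fin.snocEquiv (fun _ : Fin (k + 2) => Bool)) (x, s) v.succ)) *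
          F ((Fin.snocEquiv (fun _ : Fin (k + 2) => Bool)) (x, s) 0)
            ((Fin.snocEquiv (fun _ : Fin (k + 2) => Bool)) (x, s) (Fin.last (k + 1))) =
        (∏ v : Fin k, KN v (s v.castSucc) (s v.succ)) *
          (KN k (s (Fin.last k)) x * F (s 0) x) := by
      intro s x
      rw [Fin.prod_univ_castSucc]
      have e1 : ∀ v : Fin (k + 1),
          (Fin.snocEquiv (fun _ : Fin (k + 2) => Bool)) (x, s) v.castSucc = s v := by
        intro v
        simp [Fin.snocEquiv]
      have e2 : (Fin.snocEquiv (fun _ : Fin (k + 2) => Bool)) (x, s) (Fin.last (k + 1)) = x := by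
        simp [Fin.snocEquiv]
      have e3 : (Fin.snocEquiv (fun _ : Fin (k + 2) => Bool)) (x, s) 0 = s 0 := by
        have : (0 : Fin (k + 2)) = (0 : Fin (k + 1)).castSucc := rfl
        rw [this, e1]
      have e4 : ∀ v : Fin k,
          (Fin.snocEquiv (fun _ : Fin (k + 2) => Bool)) (x, s) v.castSucc.succ = s v.succ := by
        intro v
        rw [Fin.succ_castSucc, e1]
      have e5 : (Fin.last k).succ = Fin.last (k + 1) := rfl
      rw [e5, e2, e3, e1]
      simp only [e1, e4, Fin.val_castSucc, Fin.val_last]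
      ring
    simp only [hterm]
    have h2 : ∀ s : Fin (k + 1) → Bool,
        ∑ x : Bool, (∏ v : Fin k, KN v (s v.castSucc) (s v.succ)) *
          (KN k (s (Fin.last k)) x * F (s 0) x) =
        (∏ v : Fin k, KN v (s v.castSucc) (s v.succ)) *
          (fun i l => ∑ x : Bool, KN k l x * F i x) (s 0) (s (Fin.last k)) := by
      intro s
      rw [Finset.mul_sum]
    rw [Finset.sum_congr rfl fun s _ => h2 s,
      ih (fun i l => ∑ x : Bool, KN k l x * F i x)]
    simp only [Fintype.sum_bool, Pw]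
    ring

/-- table of the products of transfer matrices -/
def tab : Fin 20 → ℤ × ℤ × ℤ × ℤ :=
  ![(1, 0, 0, 1),
    (1, 1, -1, 35),
    (38, 0, -2, -108),
    (380, 38, -344, 1402),
    (1938, 418, -318, -27670),
    (80712, 684, -96048, 82692),
    (162108, 65664, -109404, -1915272),
    (2173068, 188784, -3337524, 12969288),
    (63774108, 3876228, -44911044, -191582604),
    (1095788520, 3508920, -1338235560, 6040821240),
    (40551193080, 13068757080, -37433073240, -154997715240),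
    (1657219228920, -219479026680, -3244996292760, 3490081304040),
    (27733768838280, 11994986540520, -48184774368840, -121417590607560),
    (840264255931680, -56994736214160, -1761611228519040, 1507107171030480),
    (10695456382255200, 1239227409430800, -16872517286625600, -12311361425732400),
    (22630140173941200, -16567546625222400, -46056395998983600, 253977434079487200),
    (911268200506366800, 117593060397490800, -1634334801878840400, -900101490235412400),
    (4909120183724306400, -1322999947045958400, -10871978480100439200, 15467593512593995200),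
    (47768201890197105600, 31926359862770378400, -93252191288410396800, -233694651104023255200),
    (1863202549525604042400, 48010877698114029600, -4151415030983254447200, -607831762023659368800)]

theorem tab_ok : ∀ k : Fin 19,
    (tab k.succ).1 = (tab k.castSucc).1 * KI k false false +
      (tab k.castSucc).2.1 * KI k true false ∧
    (tab k.succ).2.1 = (tab k.castSucc).1 * KI k false true +
      (tab k.castSucc).2.1 * KI k true true ∧
    (tab k.succ).2.2.1 = (tab k.castSucc).2.2.1 * KI k false false +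
      (tab k.castSucc).2.2.2 * KI k true false ∧
    (tab k.succ).2.2.2 = (tab k.castSucc).2.2.1 * KI k false true +
      (tab k.castSucc).2.2.2 * KI k true true := by
  decide

theorem Pw_tab : ∀ (k : ℕ) (hk : k < 20),
    Pw k false false = (tab ⟨k, hk⟩).1 ∧ Pw k false true = (tab ⟨k, hk⟩).2.1 ∧
    Pw k true false = (tab ⟨k, hk⟩).2.2.1 ∧ Pw k true true = (tab ⟨k, hk⟩).2.2.2 := by
  intro k
  induction k with
  | zero =>
    intro _
    exact ⟨rfl, rfl, rfl, rfl⟩
  | succ k ih =>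
    intro hk
    obtain ⟨h1, h2, h3, h4⟩ := ih (by omega)
    have hk' : k < 19 := by omega
    obtain ⟨t1, t2, t3, t4⟩ := tab_ok ⟨k, hk'⟩
    have eK : ∀ b b', KN k b b' = KI ⟨k, hk'⟩ b b' := by
      intro b b'
      have : Fin.ofNat 19 k = ⟨k, hk'⟩ := by
        ext
        exact Nat.mod_eq_of_lt hk'
      rw [KN, this]
    have es : (⟨k + 1, hk⟩ : Fin 20) = (⟨k, hk'⟩ : Fin 19).succ := rfl
    have ec : (⟨k, by omega⟩ : Fin 20) = (⟨k, hk'⟩ : Fin 19).castSucc := rfl
    rw [es]
    rw [ec] at h1 h2 h3 h4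
    simp only [Pw, eK]
    rw [t1, t2, t3, t4, h1, h2, h3, h4]
    exact ⟨rfl, rfl, rfl, rfl⟩

theorem Pw_succ (k : ℕ) (i j : Bool) :
    Pw (k + 1) i j = Pw k i false * KN k false j + Pw k i true * KN k true j := rfl

theorem tab_sum (h : 19 < 20) :
    (tab ⟨19, h⟩).1 + (tab ⟨19, h⟩).2.2.2 = 1255370787501944673600 := by
  change (tab (19 : Fin 20)).1 + (tab (19 : Fin 20)).2.2.2 = 1255370787501944673600
  decide

theorem total :
    ∑ s : Fin 19 → Bool, ∏ v : Fin 19, KI v (s v) (s (v + 1)) = 1255370787501944673600 := by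
  have h1 : ∀ s : Fin 19 → Bool, ∏ v : Fin 19, KI v (s v) (s (v + 1)) =
      (∏ v : Fin 18, KN v (s v.castSucc) (s v.succ)) *
        (fun i j => KN 18 j i) (s 0) (s (Fin.last 18)) := by
    intro s
    rw [Fin.prod_univ_castSucc (n := 18)]
    congr 1
  simp only [h1]
  rw [path_sum 18 (fun i j => KN 18 j i)]
  have hlt : 19 < 20 := by decide
  have a1 := (Pw_tab 19 hlt).1
  have a4 := (Pw_tab 19 hlt).2.2.2
  rw [Pw_succ 18] at a1 a4
  rw [Fintype.sum_bool, Fintype.sum_bool, Fintype.sum_bool, ← tab_sum hlt, ← a1, ← a4]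
  ring

theorem total_den : ∏ v : Fin 19, KI v false false = 1294062204096391210000 := by decide

/-! ### The amplitude -/

/-- complex spinors of the darts, not normalised -/
def sp (d : D) : Fin 2 → ℂ := ![((sI d).1 : ℂ), ((sI d).2 : ℂ)]

theorem omega_sp (d e : D) : omega (sp d) (sp e) = ((oI (sI d) (sI e) : ℤ) : ℂ) := by
  simp [omega, sp, oI]

/-- the product over the edges -/
noncomputable def Q (a : D → Fin 2 → ℂ) (τ : Equiv.Perm D) : ℂ :=
  ∏ k : Fin 19, omega (a (τ (k, true))) (a (τ (k, false)))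

theorem omega_smul (c c' : ℂ) (a b : Fin 2 → ℂ) : omega (c • a) (c' • b) = c * c' * omega a b := by
  simp only [omega, Pi.smul_apply, smul_eq_mul]
  ring

theorem Q_smul (c : D → ℂ) (a : D → Fin 2 → ℂ) (τ : Equiv.Perm D) :
    Q (fun d => c d • a d) τ = (∏ d, c d) * Q a τ := by
  have h1 : ∏ d, c d = ∏ k : Fin 19, (c (τ (k, true)) * c (τ (k, false))) := by
    rw [← Equiv.prod_comp τ, Fintype.prod_prod_type]
    refine Finset.prod_congr rfl fun k _ => ?_
    rw [Fintype.prod_bool]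
  rw [h1, Q, Q, ← Finset.prod_mul_distrib]
  refine Finset.prod_congr rfl fun k _ => ?_
  simp only [omega_smul]

theorem Q_Phi (s : Fin 19 → Bool) :
    Q sp (Phi s) = ((∏ v : Fin 19, KI v (s v) (s (v + 1)) : ℤ) : ℂ) := by
  rw [Q]
  push_cast
  refine Finset.prod_congr rfl fun k _ => ?_
  have e : ∀ d, Phi s d = phi s d := fun l => rfl
  rw [e, e, omega_sp, KI]
  rfl

theorem Q_one : Q sp 1 = ((1294062204096391210000 : ℤ) : ℂ) := by
  have : (1 : Equiv.Perm D) = Phi (fun _ => false) := by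
    ext1 d
    obtain ⟨k, l⟩ := d
    cases l <;> rfl
  rw [this, Q_Phi, total_den]

theorem sum_Q : ∑ τ ∈ pres, Q sp τ = ((1255370787501944673600 : ℤ) : ℂ) := by
  rw [sum_Phi]
  simp only [Q_Phi]
  rw [← Int.cast_sum, total]

theorem amplitude_cyc (ψ : cyc.Dart → Fin 2 → ℂ) (c : D → ℂ)
    (hc : ∀ d, c d ≠ 0) (hψ : ∀ d : D, ψ (eqv d) = c d • sp d)
    (Δ : Finset cyc.Dart) (hΔ : IsHalf _ Δ) :
    amplitude cyc ψ Δ = ((1255370787501944673600 : ℤ) : ℂ) / ((1294062204096391210000 : ℤ) : ℂ) := by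
  have hfun : (fun d : D => ψ (eqv d)) = fun d => c d • sp d := funext hψ
  set ε : ℂ := ∏ k : Fin 19, (if eqv (k, true) ∈ Δ then (1 : ℂ) else -1) with hε
  have hε0 : ε ≠ 0 := by
    rw [hε, Finset.prod_ne_zero_iff]
    intro k _
    split_ifs <;> simp
  have hterm : ∀ τ : Equiv.Perm D,
      ∏ d ∈ Δ, omega (ψ (eqv.permCongr τ d)) (ψ (eqv.permCongr τ d.symm)) =
        ε * ((∏ d, c d) * Q sp τ) := by
    intro τ
    rw [prod_half Δ hΔ (fun d => omega (ψ (eqv.permCongr τ d))
      (ψ (eqv.permCongr τ d.symm)))]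
    · rw [← hε]
      congr 1
      rw [← Q_smul, ← hfun, Q]
      refine Finset.prod_congr rfl fun k _ => ?_
      have e : ∀ d, eqv.permCongr τ (eqv d) = eqv (τ d) := by
        intro d
        simp [Equiv.permCongr_apply]
      simp only [eqv_symm, rev, e, Bool.not_true]
    · intro d
      simp only [SimpleGraph.Dart.symm_symm, omega]
      ring
  have hden : ∏ d ∈ Δ, omega (ψ d) (ψ d.symm) = ε * ((∏ d, c d) * Q sp 1) := by
    rw [← hterm 1]
    refine Finset.prod_congr rfl fun d _ => ?_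
    simp [Equiv.permCongr_apply]
  rw [amplitude, sum_pres, hden]
  simp only [hterm]
  rw [← Finset.mul_sum, ← Finset.mul_sum, sum_Q, Q_one]
  have hP : ∏ d, c d ≠ 0 := Finset.prod_ne_zero_iff.2 fun d _ => hc d
  rw [mul_div_mul_left _ _ hε0, mul_div_mul_left _ _ hP]

/-! ### The configuration -/

/-- the configuration: a convex 19-gon in the `(x, z)`-plane -/
noncomputable def conf (v : Fin 19) : E3 := !₂[(xI v : ℝ), 0, (zI v : ℝ)]

/-- the vector `(2pq, 0, p² - q²)` of the spinor `(p, q)` -/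
noncomputable def vec (a : ℤ × ℤ) : E3 :=
  !₂[2 * (a.1 : ℝ) * a.2, 0, (a.1 : ℝ) ^ 2 - (a.2 : ℝ) ^ 2]

theorem norm_vec (a : ℤ × ℤ) : ‖vec a‖ = (a.1 : ℝ) ^ 2 + (a.2 : ℝ) ^ 2 := by
  rw [vec, EuclideanSpace.norm_eq, Fin.sum_univ_three]
  have h : ‖(!₂[2 * (a.1 : ℝ) * a.2, 0, (a.1 : ℝ) ^ 2 - (a.2 : ℝ) ^ 2] : E3) 0‖ ^ 2 +
      ‖(!₂[2 * (a.1 : ℝ) * a.2, 0, (a.1 : ℝ) ^ 2 - (a.2 : ℝ) ^ 2] : E3) 1‖ ^ 2 +
      ‖(!₂[2 * (a.1 : ℝ) * a.2, 0, (a.1 : ℝ) ^ 2 - (a.2 : ℝ) ^ 2] : E3) 2‖ ^ 2 =
      ((a.1 : ℝ) ^ 2 + (a.2 : ℝ) ^ 2) ^ 2 := by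
    simp only [Real.norm_eq_abs, sq_abs]
    simp
    ring
  rw [h, Real.sqrt_sq (by positivity)]

theorem conf_sub (d : D) :
    conf (src (rev d)) - conf (src d) = (lI d.1 : ℝ) • vec (sI d) := by
  obtain ⟨v, l⟩ := d
  obtain ⟨h1, h2, -, -⟩ := edges_ok v
  have h1' : (xI (v + 1) : ℝ) - xI v = lI v * (2 * pI v * qI v) := by exact_mod_cast h1
  have h2' : (zI (v + 1) : ℝ) - zI v = lI v * ((pI v : ℝ) ^ 2 - (qI v : ℝ) ^ 2) := by
    exact_mod_cast h2
  cases l
  · ext i
    fin_cases i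
    · simp [conf, src, rev, vec, sI]
      linarith
    · simp [conf, src, rev, vec, sI]
    · simp [conf, src, rev, vec, sI]
      linarith
  · ext i
    fin_cases i
    · simp [conf, src, rev, vec, sI]
      linarith
    · simp [conf, src, rev, vec, sI]
    · simp [conf, src, rev, vec, sI]
      linarith

theorem sI_norm (d : D) : 0 < ((sI d).1 : ℝ) ^ 2 + ((sI d).2 : ℝ) ^ 2 := by
  obtain ⟨v, l⟩ := d
  obtain ⟨-, -, -, h⟩ := edges_ok v
  have h' : 0 < (pI v : ℝ) ^ 2 + (qI v : ℝ) ^ 2 := by exact_mod_cast h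
  cases l
  · simp only [sI]
    push_cast
    nlinarith
  · exact h'

theorem unitDir_conf (d : D) : unitDir conf (src d) (src (rev d)) =
    (1 / (((sI d).1 : ℝ) ^ 2 + ((sI d).2 : ℝ) ^ 2)) • vec (sI d) := by
  have hl : 0 < (lI d.1 : ℝ) := by exact_mod_cast (edges_ok d.1).2.2.1
  rw [unitDir, conf_sub, norm_smul, norm_vec, smul_smul, Real.norm_of_nonneg hl.le]
  congr 1
  have := sI_norm d
  field_simp

theorem conf_admissible : Admissible cyc conf := by
  rintro i j ⟨d, rfl, rfl⟩ h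
  have h1 := conf_sub d
  have hl : 0 < (lI d.1 : ℝ) := by exact_mod_cast (edges_ok d.1).2.2.1
  rw [h, sub_self] at h1
  have h2 := norm_vec (sI d)
  have h3 := sI_norm d
  rcases smul_eq_zero.1 h1.symm with h4 | h4
  · exact hl.ne' h4
  · rw [h4, norm_zero] at h2
    exact h3.ne h2

theorem spinor_form (a : ℤ × ℤ) (ha : 0 < (a.1 : ℝ) ^ 2 + (a.2 : ℝ) ^ 2) (ψ : Fin 2 → ℂ)
    (h : IsUnitSpinor ((1 / ((a.1 : ℝ) ^ 2 + (a.2 : ℝ) ^ 2)) • vec a) ψ) :
    ∃ c : ℂ, c ≠ 0 ∧ ψ = c • (![(a.1 : ℂ), (a.2 : ℂ)] : Fin 2 → ℂ) := by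
  obtain ⟨h1, h2⟩ := h
  suffices hs : ∃ c : ℂ, ψ = c • (![(a.1 : ℂ), (a.2 : ℂ)] : Fin 2 → ℂ) by
    obtain ⟨c, hc⟩ := hs
    refine ⟨c, ?_, hc⟩
    rintro rfl
    rw [hc] at h1
    simp at h1
  obtain ⟨p, q⟩ := a
  have hN : ((p : ℂ) ^ 2 + (q : ℂ) ^ 2) ≠ 0 := by
    have : (((p : ℝ) ^ 2 + (q : ℝ) ^ 2 : ℝ) : ℂ) ≠ 0 := by
      exact_mod_cast ha.ne'
    push_cast at this
    exact this
  have e0 := congrFun h2 0
  have e1 := congrFun h2 1
  simp only [dotSigma, pauli1, pauli2, pauli3, Matrix.mulVec, dotProduct, Fin.sum_univ_two,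
    Matrix.add_apply, Matrix.smul_apply, smul_eq_mul] at e0 e1
  simp [vec] at e0 e1
  field_simp at e0 e1
  refine ⟨((p : ℂ) * ψ 0 + q * ψ 1) / ((p : ℂ) ^ 2 + (q : ℂ) ^ 2), ?_⟩
  ext i
  fin_cases i
  · simp
    field_simp
    linear_combination (-1 / 2 : ℂ) * e0
  · simp
    field_simp
    linear_combination (-1 / 2 : ℂ) * e1

theorem spinor_exists (a : ℤ × ℤ) (ha : 0 < (a.1 : ℝ) ^ 2 + (a.2 : ℝ) ^ 2) :
    ∃ ψ : Fin 2 → ℂ, IsUnitSpinor ((1 / ((a.1 : ℝ) ^ 2 + (a.2 : ℝ) ^ 2)) • vec a) ψ := by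
  obtain ⟨p, q⟩ := a
  have hN : ((p : ℂ) ^ 2 + (q : ℂ) ^ 2) ≠ 0 := by
    have : (((p : ℝ) ^ 2 + (q : ℝ) ^ 2 : ℝ) : ℂ) ≠ 0 := by
      exact_mod_cast ha.ne'
    push_cast at this
    exact this
  refine ⟨((1 / Real.sqrt ((p : ℝ) ^ 2 + (q : ℝ) ^ 2) : ℝ) : ℂ) •
    (![(p : ℂ), (q : ℂ)] : Fin 2 → ℂ), ?_, ?_⟩
  · simp only [Pi.smul_apply, smul_eq_mul, norm_mul, mul_pow, Matrix.cons_val_zero,
      Matrix.cons_val_one, Complex.norm_real, Complex.norm_intCast, Real.norm_eq_abs, sq_abs]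
    rw [div_pow, Real.sq_sqrt ha.le]
    simp only at ha
    field_simp
  · rw [Matrix.mulVec_smul]
    congr 1
    ext i
    simp only [dotSigma, pauli1, pauli2, pauli3, Matrix.mulVec, dotProduct, Fin.sum_univ_two,
      Matrix.add_apply, Matrix.smul_apply, smul_eq_mul]
    fin_cases i
    · simp [vec]
      field_simp
      ring
    · simp [vec]
      field_simp
      ring

theorem spinorChoice_exists :
    ∃ ψ : cyc.Dart → Fin 2 → ℂ, IsSpinorChoice cyc conf ψ := by
  have h : ∀ d : cyc.Dart, ∃ ψ : Fin 2 → ℂ, IsUnitSpinor (unitDir conf d.fst d.snd) ψ := by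
    intro d
    obtain ⟨e, rfl⟩ := eqv.surjective d
    obtain ⟨ψ, hψ⟩ := spinor_exists (sI e) (sI_norm e)
    refine ⟨ψ, ?_⟩
    rw [eqv_fst, eqv_snd, unitDir_conf]
    exact hψ
  exact ⟨fun d => (h d).choose, fun d => (h d).choose_spec⟩

theorem half_exists : ∃ Δ : Finset cyc.Dart, IsHalf cyc Δ := by
  refine ⟨univ.filter fun d => (eqv.symm d).2 = true, fun d => ?_⟩
  obtain ⟨e, rfl⟩ := eqv.surjective d
  rw [eqv_symm]
  obtain ⟨k, l⟩ := e
  cases l <;> simp [rev]

/-- **Disproof of Q1 of MP_229e70_co.**  There are a finite simple graph `G` and an admissible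
configuration `x` in `ℝ³` with `|A_G(x)| < 1`.  Spinor choices `ψ` and halves `Δ` exist, and the
inequality holds for all of them. -/
theorem result :
    ∃ (V : Type) (_ : Fintype V) (_ : DecidableEq V) (G : SimpleGraph V)
      (_ : DecidableRel G.Adj) (x : V → E3),
      Admissible G x ∧
      (∃ ψ : G.Dart → Fin 2 → ℂ, IsSpinorChoice G x ψ) ∧
      (∃ Δ : Finset G.Dart, IsHalf G Δ) ∧
      ∀ (ψ : G.Dart → Fin 2 → ℂ) (Δ : Finset G.Dart), IsSpinorChoice G x ψ → IsHalf G Δ →
        ‖amplitude G ψ Δ‖ < 1 := by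
  refine ⟨Fin 19, inferInstance, inferInstance, cyc, inferInstance, conf,
    conf_admissible, spinorChoice_exists, half_exists, ?_⟩
  intro ψ Δ hψ hΔ
  have h : ∀ d : D, ∃ c : ℂ, c ≠ 0 ∧ ψ (eqv d) = c • sp d := by
    intro d
    refine spinor_form (sI d) (sI_norm d) _ ?_
    have := hψ (eqv d)
    rw [eqv_fst, eqv_snd, unitDir_conf] at this
    exact this
  choose c hc hcψ using h
  rw [amplitude_cyc ψ c hc hcψ Δ hΔ, norm_div, Complex.norm_intCast, Complex.norm_intCast]
  norm_num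

end Pool.Agent.Results.MP_229e70_co.SmallAmplitude
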